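import Pool.Agent.Work.MP_66343f_fd.Interface

/-! # Block APX: infinite girth from mixed words -/

set_option autoImplicit false

namespace Pool.FDA

open Pool.Agent.Work.MP_66343f_al Function Filter

theorem APX_apx {G I Z : Type} [Group G] (h : MX G) (s : I → G)
    (hs : Subgroup.closure (Set.range s) = ⊤) (zf : I → Z) (hzf : Injective zf) :
    Apx G (FreeGroup.of : I ⊕ Option Z → FreeGroup (I ⊕ Option Z)) := by
  classical
  intro Ws
  obtain ⟨A, hA⟩ : ∃ A : ℕ, ∀ w ∈ Ws, w.toWord.length < A := by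
    refine ⟨Ws.sup (fun w => w.toWord.length) + 1, fun w hw => ?_⟩
    have := Finset.le_sup (f := fun w : FreeGroup (I ⊕ Option Z) => w.toWord.length) hw
    omega
  have h1 : ∀ w ∈ Ws.filter (· ≠ 1), ∃ W : List (G × (Option Z × Bool)), NB W ∧ W ≠ [] ∧
      ∀ u : Option Z → G, ev (TT s zf A u) w.toWord = mv u W := by
    intro w hw
    obtain ⟨hw1, hw2⟩ := Finset.mem_filter.mp hw
    exact nf' s zf hzf A _ FreeGroup.isReduced_toWord (hA w hw1)
      (fun h => hw2 (FreeGroup.toWord_eq_nil_iff.mp h))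
  choose! f hf1 hf2 hf3 using h1
  obtain ⟨u, hu⟩ := h (Option Z) (((Ws.filter (· ≠ 1)).toList).map f) (by
    intro W hW
    obtain ⟨w, hw, rfl⟩ := List.mem_map.mp hW
    rw [Finset.mem_toList] at hw
    exact ⟨hf1 w hw, hf2 w hw⟩)
  refine ⟨TT s zf A u, TT_closure s hs zf A u, ?_⟩
  intro w hw
  have hid : FreeGroup.lift (FreeGroup.of : I ⊕ Option Z → _) w = w := by
    rw [FreeGroup.lift_of_eq_id]
    rfl
  rw [hid]
  constructor
  · intro h2
    by_contra hne
    have hw' : w ∈ Ws.filter (· ≠ 1) := Finset.mem_filter.mpr ⟨hw, hne⟩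
    apply hu (f w) (List.mem_map.mpr ⟨w, Finset.mem_toList.mpr hw', rfl⟩)
    rw [← hf3 w hw', ev_eq_lift, FreeGroup.mk_toWord, h2]
  · intro h2
    rw [h2, map_one]

theorem APX_preforms {G : Type} [Group G] (h : MX G) {r : ℕ} (s : Fin r → G)
    (hs : Subgroup.closure (Set.range s) = ⊤) (m : ℕ) (hm : 2 * r + 1 ≤ m) :
    Preforms G (FreeGroup (Fin m)) := by
  have h1 := APX_apx (Z := Fin (m - r - 1)) h s hs (Fin.castLE (by omega))
    (Fin.castLE_injective _)
  have hc : Nat.card (Fin r ⊕ Option (Fin (m - r - 1))) = m := by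
    rw [Nat.card_eq_fintype_card, Fintype.card_sum, Fintype.card_option, Fintype.card_fin,
      Fintype.card_fin]
    omega
  have e : Fin r ⊕ Option (Fin (m - r - 1)) ≃ Fin m := Finite.equivFinOfCardEq hc
  refine (h1.equiv e).preforms ?_
  rw [show (fun i => FreeGroup.of (e i)) = FreeGroup.of ∘ e from rfl, Set.range_comp,
    e.surjective.range_eq, Set.image_univ]
  exact FreeGroup.closure_range_of _

theorem p_APX : Stmt_APX := by
  intro G _ hfg h
  obtain ⟨S, hS⟩ := Group.fg_def.mp hfg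
  have hgen : Subgroup.closure (Set.range fun i : Fin S.card => ((S.equivFin.symm i : S) : G)) =
      ⊤ := by
    rw [eq_top_iff, ← hS, Subgroup.closure_le]
    intro s hs
    exact Subgroup.subset_closure ⟨S.equivFin ⟨s, hs⟩, by simp⟩
  have h1 : ∀ m ≥ 2 * S.card + 1, Preforms G (FreeGroup (Fin m)) := fun m hm =>
    APX_preforms h _ hgen m hm
  refine ⟨⟨_, h1⟩, ?_⟩
  exact .out (h1 (2 * S.card + 5) (by omega)) (.inc (f2_preforms _ (by omega))
    (.iso 0 (MulEquiv.refl _)))

end Pool.FDA
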