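import Pool.Agent.Work.MP_66343f_fd.Interface

/-!
# Block CJE: equal conjugates (helper46)
-/

set_option autoImplicit false

namespace Pool.FDA

open Pool.Agent.Work.MP_66343f_al Function Filter

theorem p_CJE (h1 : Stmt_MAB) : Stmt_CJE := by
  intro G J _ Q _ U f s A
  have key : ∀ v w : FreeGroup J, mkB U f s w ∈ cj (AB U f s A) (mkB U f s v) ↔
      ∀ᶠ n in (U : Filter ℕ), vl f s n w ∈ cj (A n) (vl f s n v) := by
    intro v w
    rw [mem_cj]
    have e : (mkB U f s v)⁻¹ * mkB U f s w * mkB U f s v = mkB U f s (v⁻¹ * w * v) := by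
      simp only [mkB, map_mul, map_inv]
    rw [e, h1]
    refine eventually_congr (Eventually.of_forall fun n => ?_)
    rw [mem_cj, map_mul, map_mul, map_inv]
  refine ⟨key, ?_⟩
  intro v v' h
  ext x
  obtain ⟨w, rfl⟩ := QuotientGroup.mk'_surjective _ x
  refine (key v w).trans (Iff.trans ?_ (key v' w).symm)
  refine eventually_congr ?_
  filter_upwards [h] with n hn
  rw [hn]

end Pool.FDA
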