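import Pool.Agent.Work.MP_66343f_fd.Interface

/-!
# MP_66343f_al: block CJN
-/

set_option autoImplicit false

namespace Pool.FDA

open Pool.Agent.Work.MP_66343f_al Function Filter

theorem p_CJN (_hMAB : Stmt_MAB) (hCJE : Stmt_CJE) : Stmt_CJN := by
  intro G J _ Q _ U f s A hA j hj v v' h
  by_contra hne
  have hne' : ∀ᶠ n in (U : Filter ℕ), ¬ cj (A n) (vl f s n v) = cj (A n) (vl f s n v') :=
    Ultrafilter.eventually_not.2 hne
  have hC := (hCJE G J Q U f s A).1
  have h1 : mkB U f s (v * FreeGroup.of j * v⁻¹) ∈ cj (AB U f s A) (mkB U f s v) := by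
    rw [hC]
    refine Eventually.of_forall fun n => ?_
    rw [mem_cj, map_mul, map_mul, map_inv]
    have h5 : (vl f s n v)⁻¹ * (vl f s n v * vl f s n (FreeGroup.of j) * (vl f s n v)⁻¹) *
        vl f s n v = vl f s n (FreeGroup.of j) := by group
    rw [h5]
    exact (hj n).1
  rw [h, hC] at h1
  obtain ⟨n, h2, h3⟩ := (h1.and hne').exists
  rw [mem_cj, map_mul, map_mul, map_inv] at h2
  have hq : cj (A n) ((vl f s n v)⁻¹ * vl f s n v') ≠ A n := by
    intro hq
    apply h3
    have h6 := cj_cj (A n) ((vl f s n v)⁻¹ * vl f s n v') (vl f s n v)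
    rw [hq, mul_inv_cancel_left] at h6
    exact h6
  have hx : vl f s n (FreeGroup.of j) ∈ cj (A n) ((vl f s n v)⁻¹ * vl f s n v') := by
    rw [mem_cj]
    have h7 : ((vl f s n v)⁻¹ * vl f s n v')⁻¹ * vl f s n (FreeGroup.of j) *
        ((vl f s n v)⁻¹ * vl f s n v') =
        (vl f s n v')⁻¹ * (vl f s n v * vl f s n (FreeGroup.of j) * (vl f s n v)⁻¹) *
          vl f s n v' := by group
    rw [h7]
    exact h2
  exact (hj n).2 ((hA n).indep _ (hj n).1 (Subgroup.subset_closure ⟨_, hq, hx⟩))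

end Pool.FDA
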