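import Pool.Agent.Work.MP_66343f_fd.Interface

set_option autoImplicit false

namespace Pool.FDA

open Pool.Agent.Work.MP_66343f_al Function Filter

theorem CLO_ge {U : Ultrafilter ℕ} (hU : (U : Filter ℕ) ≤ cofinite) (m : ℕ) :
    ∀ᶠ n in (U : Filter ℕ), m ≤ n := by
  refine hU ?_
  rw [Nat.cofinite_eq_atTop]
  exact eventually_ge_atTop m

theorem p_CLO : Stmt_CLO := by
  intro G _ X U ρ μ c hU hsize hc T hT
  classical
  have hex : ∀ x : XU U X, ∃ a : ∀ n, X n, xu U a = x := fun x => Quotient.exists_rep x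
  choose rep hrep using hex
  have hfin : ∀ n, ((fun x => rep x n) '' T).Finite := fun n => hT.image _
  have hcard : ∀ n, ((fun x => rep x n) '' T).ncard ≤ T.ncard := fun n => Set.ncard_image_le hT
  refine ⟨∑ k ∈ Finset.range (T.ncard + 1), c k,
    fun n => {p | μ n (orbS (ρ n) ((fun x => rep x n) '' T) p) < n}, ?_, ?_⟩
  · filter_upwards [CLO_ge hU T.ncard] with n hn
    refine (hc n _ (hfin n) ((hcard n).trans hn)).trans ?_
    exact Finset.single_le_sum (f := c) (fun _ _ => Nat.zero_le _)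
      (Finset.mem_range.2 (Nat.lt_succ_of_le (hcard n)))
  · intro p hp
    obtain ⟨k, D, hk, hD⟩ := hp
    have hsub : ∀ᶠ n in (U : Filter ℕ), orbS (ρ n) ((fun x => rep x n) '' T) (p n) ⊆ D n := by
      by_contra hcon
      rw [← Ultrafilter.eventually_not] at hcon
      have hγ : ∀ n, ∃ g : G, (∀ y ∈ (fun x => rep x n) '' T, ρ n g y = y) ∧
          (¬ orbS (ρ n) ((fun x => rep x n) '' T) (p n) ⊆ D n → ρ n g (p n) ∉ D n) := by
        intro n
        by_cases h : orbS (ρ n) ((fun x => rep x n) '' T) (p n) ⊆ D n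
        · exact ⟨1, fun y _ => by simp, fun h' => absurd h h'⟩
        · obtain ⟨q, ⟨g, hg1, hg2⟩, hq⟩ := Set.not_subset.1 h
          refine ⟨g, hg1, fun _ => ?_⟩
          rw [hg2]
          exact hq
      choose γ hγ1 hγ2 using hγ
      have hmem : actU U ρ γ (xu U p) ∈ orbS (PU U ρ).subtype T (xu U p) := by
        refine ⟨⟨actU U ρ γ, ⟨γ, rfl⟩⟩, ?_, rfl⟩
        intro y hy
        change actU U ρ γ y = y
        rw [← hrep y, actU_xu, xu_eq]
        exact Eventually.of_forall fun n => hγ1 n _ ⟨y, hy, rfl⟩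
      rw [actU_xu] at hmem
      have h1 := hD _ hmem
      obtain ⟨n, hn1, hn2⟩ := (h1.and hcon).exists
      exact hγ2 n hn2 hn1
    filter_upwards [hsub, hk, CLO_ge hU (k + 1)] with n h1 h2 h3
    change μ n (orbS (ρ n) ((fun x => rep x n) '' T) (p n)) < n
    have h4 := (hsize n).mono _ _ h1
    omega

end Pool.FDA
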