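import Pool.Agent.Work.MP_66343f_fd.Interface

/-!
# Block EXA: large actions on finite sets, symmetric groups
-/

set_option autoImplicit false

namespace Pool.FDA

open Pool.Agent.Work.MP_66343f_al Function Filter

theorem EXA_size {G X : Type} [Group G] [Finite X] (ρ : G →* Equiv.Perm X) :
    Size ρ (fun S : Set X => S.ncard) where
  mono := fun S S' h => Set.ncard_le_ncard h (Set.toFinite S')
  union := fun S S' => Set.ncard_union_le S S'
  point := fun x => le_of_eq (Set.ncard_singleton x)
  inv := fun g S => Set.ncard_image_of_injective S (ρ g).injective

theorem p_EXA : Stmt_EXA := by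
  intro G _ h N
  obtain ⟨X, hF, hne, ρ, r, hr, hcard, hext⟩ := h (2 * N + 2)
  refine ⟨X, hF, ρ, fun S : Set X => S.ncard, EXA_size ρ, ?_, ?_⟩
  · obtain ⟨x⟩ := hne
    have h1 := hcard x
    have h2 : {y | r x y}.ncard ≤ (Set.univ : Set X).ncard :=
      Set.ncard_le_ncard (Set.subset_univ _) (Set.toFinite _)
    change N ≤ (Set.univ : Set X).ncard
    omega
  · intro T hT
    change {p | (orbS ρ T p).ncard < N}.ncard ≤ T.ncard
    refine Set.ncard_le_ncard ?_ (Set.toFinite T)
    intro p hp
    change (orbS ρ T p).ncard < N at hp
    by_contra hpT
    have key : {y | r p y} \ T ⊆ orbS ρ T p := by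
      intro q hq
      obtain ⟨hq1, hq2⟩ := hq
      classical
      obtain ⟨φ, hφ⟩ : ∃ φ : X → X, φ = fun x => if x = p then q else x := ⟨_, rfl⟩
      have hφp : φ p = q := by rw [hφ]; simp
      have hφx : ∀ x, x ≠ p → φ x = x := by
        intro x hx
        rw [hφ]
        simp [hx]
      have hc : (insert p T : Set X).ncard ≤ 2 * N + 2 := by
        have := Set.ncard_insert_le p T
        omega
      have hinj : Set.InjOn φ (insert p T) := by
        intro x hx y hy hxy
        by_cases h1 : x = p
        · by_cases h2 : y = p
          · rw [h1, h2]
          · exfalso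
            have hyT : y ∈ T := by
              rcases hy with h3 | h3
              · exact absurd h3 h2
              · exact h3
            rw [h1, hφp, hφx y h2] at hxy
            rw [← hxy] at hyT
            exact hq2 hyT
        · by_cases h2 : y = p
          · exfalso
            have hxT : x ∈ T := by
              rcases hx with h3 | h3
              · exact absurd h3 h1
              · exact h3
            rw [h2, hφp, hφx x h1] at hxy
            rw [hxy] at hxT
            exact hq2 hxT
          · rw [hφx x h1, hφx y h2] at hxy
            exact hxy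
      have hrr : ∀ x ∈ (insert p T : Set X), r x (φ x) := by
        intro x _
        by_cases h1 : x = p
        · rw [h1, hφp]
          exact hq1
        · rw [hφx x h1]
          exact hr x
      obtain ⟨g, hg⟩ := hext (insert p T) φ hc hinj hrr
      refine ⟨g, ?_, ?_⟩
      · intro y hy
        have hyp : y ≠ p := by
          intro h1
          rw [h1] at hy
          exact hpT hy
        rw [hg y (Set.mem_insert_of_mem p hy), hφx y hyp]
      · rw [hg p (Set.mem_insert p T), hφp]
    have h1 := Set.ncard_le_ncard key (Set.toFinite _)
    have h2 : {y | r p y}.ncard - T.ncard ≤ ({y | r p y} \ T).ncard := by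
      have h3 : {y | r p y} ⊆ ({y | r p y} \ T) ∪ T := by
        intro y hy
        by_cases hyT : y ∈ T
        · exact Or.inr hyT
        · exact Or.inl ⟨hy, hyT⟩
      have h4 := Set.ncard_le_ncard h3 (Set.toFinite _)
      have h5 := Set.ncard_union_le ({y | r p y} \ T) T
      omega
    have h3 := hcard p
    omega

end Pool.FDA
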