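import Pool.Agent.Work.MP_66343f_fd.Interface

/-!
# Block EXL: large actions on finite sets, linear groups of large dimension over finite fields
-/

set_option autoImplicit false

namespace Pool.FDA

open Pool.Agent.Work.MP_66343f_al Function Filter

/-- the size of a set of vectors: the dimension of its span -/
noncomputable def EXL_mu (K V : Type) [Field K] [AddCommGroup V] [Module K V] (S : Set V) : ℕ :=
  Module.finrank K (Submodule.span K S)

/-- the action by permutations of a linear representation -/
def EXL_act {G K V : Type} [Group G] [Field K] [AddCommGroup V] [Module K V]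
    (ρ : G →* (V ≃ₗ[K] V)) : G →* Equiv.Perm V where
  toFun g := (ρ g).toEquiv
  map_one' := by
    ext x
    simp
  map_mul' := by
    intro a b
    ext x
    simp

theorem EXL_act_apply {G K V : Type} [Group G] [Field K] [AddCommGroup V] [Module K V]
    (ρ : G →* (V ≃ₗ[K] V)) (g : G) (x : V) : EXL_act ρ g x = ρ g x := rfl

theorem EXL_single {K V : Type} [Field K] [AddCommGroup V] [Module K V] (x : V) :
    Module.finrank K (Submodule.span K ({x} : Set V)) ≤ 1 := by
  have h := finrank_span_le_card (R := K) ({x} : Set V)
  simpa using h

theorem EXL_size {G K V : Type} [Group G] [Field K] [AddCommGroup V] [Module K V]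
    [Module.Finite K V] (ρ : G →* (V ≃ₗ[K] V)) : Size (EXL_act ρ) (EXL_mu K V) where
  mono := fun S S' h => Submodule.finrank_mono (Submodule.span_mono h)
  union := fun S S' => by
    unfold EXL_mu
    rw [Submodule.span_union]
    exact Submodule.finrank_add_le_finrank_add_finrank _ _
  point := fun x => by
    unfold EXL_mu
    exact EXL_single x
  inv := fun g S => by
    unfold EXL_mu
    have h1 : (EXL_act ρ g '' S) = ((ρ g : V ≃ₗ[K] V) : V →ₗ[K] V) '' S := rfl
    rw [h1, Submodule.span_image]
    exact LinearEquiv.finrank_map_eq (ρ g) _

theorem EXL_mu_le {K V : Type} [Field K] [AddCommGroup V] [Module K V] (T : Set V)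
    (hT : T.Finite) : EXL_mu K V T ≤ T.ncard := by
  classical
  have := hT.fintype
  unfold EXL_mu
  have h1 := finrank_span_le_card (R := K) T
  rwa [← Set.ncard_eq_toFinset_card'] at h1

theorem p_EXL : Stmt_EXL := by
  intro G _ h N
  obtain ⟨K, V, hK, hKf, hV, hM, hMf, ρ, hdim, htr⟩ := h (2 * N + 2)
  have : Finite V := Module.finite_of_finite K
  refine ⟨V, this, EXL_act ρ, EXL_mu K V, EXL_size ρ, ?_, ?_⟩
  · unfold EXL_mu
    rw [Submodule.span_univ, finrank_top]
    omega
  · intro T hT
    have hTf : T.Finite := Set.toFinite T
    have hW : EXL_mu K V T ≤ T.ncard := EXL_mu_le T hTf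
    refine le_trans (Submodule.finrank_mono (Submodule.span_le.2 ?_)) hW
    intro p hp
    change EXL_mu K V (orbS (EXL_act ρ) T p) < N at hp
    by_contra hpW
    have hpW' : p ∉ Submodule.span K T := hpW
    -- the transvections
    have key : ∀ w : V, w ∉ Submodule.span K T ⊔ Submodule.span K {p} →
        p + w ∈ orbS (EXL_act ρ) T p := by
      intro w hw
      have hp2 : p ∉ Submodule.span K T ⊔ Submodule.span K {w} := by
        intro h1
        obtain ⟨y, hy, z, hz, hyz⟩ := Submodule.mem_sup.1 h1
        obtain ⟨c, rfl⟩ := Submodule.mem_span_singleton.1 hz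
        by_cases hc : c = 0
        · rw [hc, zero_smul, add_zero] at hyz
          rw [hyz] at hy
          exact hpW' hy
        · apply hw
          have h2 : w = (-(c⁻¹)) • y + c⁻¹ • p := by
            rw [← hyz, smul_add, smul_smul, inv_mul_cancel₀ hc, one_smul, neg_smul]
            abel
          rw [h2]
          exact Submodule.add_mem_sup (Submodule.smul_mem _ _ hy)
            (Submodule.smul_mem _ _ (Submodule.mem_span_singleton_self p))
      obtain ⟨l, hl1, hl2⟩ := Submodule.exists_le_ker_of_notMem hp2
      have hl2' : l w = 0 := by
        have : w ∈ LinearMap.ker l :=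
          hl2 (Submodule.mem_sup_right (Submodule.mem_span_singleton_self w))
        exact this
      have hlT : ∀ y ∈ T, l y = 0 := by
        intro y hy
        have : y ∈ LinearMap.ker l :=
          hl2 (Submodule.mem_sup_left (Submodule.subset_span hy))
        exact this
      obtain ⟨g, hg⟩ := htr ((l p)⁻¹ • l) w (by simp [hl2'])
      refine ⟨g, ?_, ?_⟩
      · intro y hy
        rw [EXL_act_apply, hg y]
        simp [hlT y hy]
      · rw [EXL_act_apply, hg p]
        have : ((l p)⁻¹ • l) p = 1 := by
          simp [hl1]
        rw [this, one_smul]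
    have hpo : p ∈ orbS (EXL_act ρ) T p := by
      refine ⟨1, ?_, ?_⟩
      · intro y _
        rw [map_one]
        rfl
      · rw [map_one]
        rfl
    -- the subspace spanned by `T` and `p` is proper
    have hprop : ∃ w0 : V, w0 ∉ Submodule.span K T ⊔ Submodule.span K {p} := by
      by_contra hcon
      push Not at hcon
      have htop : Submodule.span K T ⊔ Submodule.span K {p} = ⊤ := by
        rw [Submodule.eq_top_iff']
        exact hcon
      have h1 := Submodule.finrank_add_le_finrank_add_finrank (Submodule.span K T)
        (Submodule.span K {p})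
      rw [htop, finrank_top] at h1
      have h2 : Module.finrank K (Submodule.span K {p}) ≤ 1 := EXL_single p
      have h3 : Module.finrank K (Submodule.span K T) ≤ T.ncard := hW
      omega
    obtain ⟨w0, hw0⟩ := hprop
    have hin : ∀ w : V, w ∉ Submodule.span K T ⊔ Submodule.span K {p} →
        w ∈ Submodule.span K (orbS (EXL_act ρ) T p) := by
      intro w hw
      have h1 : p + w ∈ Submodule.span K (orbS (EXL_act ρ) T p) :=
        Submodule.subset_span (key w hw)
      have h2 : p ∈ Submodule.span K (orbS (EXL_act ρ) T p) := Submodule.subset_span hpo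
      have h3 := Submodule.sub_mem _ h1 h2
      rwa [add_sub_cancel_left] at h3
    have htop : Submodule.span K (orbS (EXL_act ρ) T p) = ⊤ := by
      rw [Submodule.eq_top_iff']
      intro x
      by_cases hx : x ∈ Submodule.span K T ⊔ Submodule.span K {p}
      · have h1 : x + w0 ∉ Submodule.span K T ⊔ Submodule.span K {p} := by
          intro h2
          apply hw0
          have h3 := Submodule.sub_mem _ h2 hx
          rwa [add_sub_cancel_left] at h3
        have h2 := Submodule.sub_mem _ (hin _ h1) (hin _ hw0)
        rwa [add_sub_cancel_right] at h2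
      · exact hin x hx
    have h1 : EXL_mu K V (orbS (EXL_act ρ) T p) = Module.finrank K V := by
      unfold EXL_mu
      rw [htop, finrank_top]
    omega

end Pool.FDA
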