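import Pool.Agent.Work.MP_66343f_fd.Interface

/-!
# Block EXU: from the ultraproduct to the group
-/

set_option autoImplicit false

namespace Pool.FDA

open Pool.Agent.Work.MP_66343f_al Function Filter

theorem EXU_nb {G H J : Type} (φ : G → H) : ∀ W : List (G × (J × Bool)), NB W →
    NB (W.map (fun a => (φ a.1, a.2)))
  | [], _ => trivial
  | a :: W, h => by
    refine ⟨?_, EXU_nb φ W h.2⟩
    intro b hb
    cases W with
    | nil => simp at hb
    | cons c W =>
      simp only [List.map_cons, List.head?_cons, Option.mem_def, Option.some.injEq] at hb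
      subst hb
      exact h.1 c (by simp)

theorem EXU_val {G : Type} [Group G] {X : ℕ → Type} {J : Type} (U : Ultrafilter ℕ)
    (ρ : ∀ n, G →* Equiv.Perm (X n)) (u : J → PU U ρ) (v : J → ℕ → G)
    (hv : ∀ j, actU U ρ (v j) = u j) :
    ∀ W : List (G × (J × Bool)),
      ((mv u (W.map (fun a => ((⟨actU U ρ (fun _ => a.1), ⟨_, rfl⟩⟩ : PU U ρ), a.2))) : PU U ρ) :
        Equiv.Perm (XU U X)) = actU U ρ (fun n => mv (fun j => v j n) W)
  | [] => (map_one (actU U ρ)).symm
  | a :: W => by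
    obtain ⟨c, j, b⟩ := a
    have ih := EXU_val U ρ u v hv W
    have hl : ((lt u (j, b) : PU U ρ) : Equiv.Perm (XU U X)) =
        actU U ρ (fun n => lt (fun j => v j n) (j, b)) := by
      cases b with
      | true => exact (hv j).symm
      | false =>
        have h1 : ((lt u (j, false) : PU U ρ) : Equiv.Perm (XU U X)) =
            ((u j : Equiv.Perm (XU U X)))⁻¹ := rfl
        rw [h1, ← hv j, ← map_inv]
        rfl
    have h2 : actU U ρ (fun n => mv (fun j => v j n) ((c, (j, b)) :: W)) =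
        actU U ρ (fun _ => c) * actU U ρ (fun n => lt (fun j => v j n) (j, b)) *
          actU U ρ (fun n => mv (fun j => v j n) W) := by
      rw [← map_mul, ← map_mul]
      rfl
    rw [h2, ← hl, ← ih]
    rfl

theorem p_EXU : Stmt_EXU := by
  intro G _ X U ρ 𝓘 h J Ws hWs
  obtain ⟨u, hu⟩ := exists_u h
    (Ws.map (fun W => W.map
      (fun a : G × (J × Bool) => ((⟨actU U ρ (fun _ => a.1), ⟨_, rfl⟩⟩ : PU U ρ), a.2)))) (by
      intro W' hW'
      obtain ⟨W, hW, rfl⟩ := List.mem_map.1 hW'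
      obtain ⟨h1, h2⟩ := hWs W hW
      refine ⟨EXU_nb (fun c : G => ((⟨actU U ρ (fun _ => c), ⟨_, rfl⟩⟩ : PU U ρ))) W h1, ?_⟩
      simpa using h2)
  have hex : ∀ j, ∃ v : ℕ → G, actU U ρ v = u j := fun j => (u j).2
  choose v hv using hex
  have hev : ∀ W ∈ Ws, ∀ᶠ n in (U : Filter ℕ), mv (fun j => v j n) W ≠ 1 := by
    intro W hW
    rw [show (∀ᶠ n in (U : Filter ℕ), mv (fun j => v j n) W ≠ 1) ↔
      ¬ ∀ᶠ n in (U : Filter ℕ), mv (fun j => v j n) W = 1 from Ultrafilter.eventually_not]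
    intro hcon
    apply hu _ (List.mem_map.2 ⟨W, hW, rfl⟩)
    apply Subtype.ext
    rw [EXU_val U ρ u v hv W]
    apply Equiv.ext
    intro x
    induction x using Quotient.inductionOn' with
    | h p =>
      change xu U (fun n => ρ n (mv (fun j => v j n) W) (p n)) = xu U p
      rw [xu_eq]
      filter_upwards [hcon] with n hn
      rw [hn, map_one]
      rfl
  have hall : ∀ᶠ n in (U : Filter ℕ), ∀ W ∈ {W | W ∈ Ws}, mv (fun j => v j n) W ≠ 1 :=
    (Filter.eventually_all_finite (List.finite_toSet Ws)).2 hev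
  obtain ⟨n, hn⟩ := hall.exists
  exact ⟨fun j => v j n, hn⟩

end Pool.FDA
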