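import Pool.Agent.Work.MP_66343f_fd.Interface

/-!
# MP_66343f_al, Theorem FA: block FAR
-/

set_option autoImplicit false

namespace Pool.FDA

open Pool.Agent.Work.MP_66343f_al Function Filter

theorem p_FAR (hIDL : Stmt_IDL) (hCLO : Stmt_CLO) (hEXU : Stmt_EXU) (hAPX : Stmt_APX) : Stmt_FAR := by
  intro G _ _ c h
  refine hAPX G ?_
  choose X hX ρ μ hS hU hT using fun n : ℕ => h (n + 1 + c 0)
  have hne : ∀ n, Nonempty (X n) := by
    intro n
    by_contra hemp
    have h1 : IsEmpty (X n) := not_nonempty_iff.1 hemp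
    have h2 := hT n ∅ (by rw [Set.ncard_empty]; omega)
    rw [Set.ncard_empty] at h2
    have h3 : μ n Set.univ ≤ μ n {p | μ n (orbS (ρ n) ∅ p) < n + 1 + c 0} :=
      (hS n).mono _ _ fun x _ => h1.elim x
    have h4 := hU n
    omega
  have hU' : ∀ n, n ≤ μ n Set.univ := fun n => by
    have := hU n
    omega
  have hT' : ∀ (n : ℕ) (T : Set (X n)), T.Finite → T.ncard ≤ n →
      μ n {p | μ n (orbS (ρ n) T p) < n} ≤ c T.ncard := by
    intro n T _ hTn
    refine ((hS n).mono _ _ ?_).trans (hT n T (by omega))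
    intro p hp
    have hp' : μ n (orbS (ρ n) T p) < n := hp
    show μ n (orbS (ρ n) T p) < n + 1 + c 0
    omega
  obtain ⟨h1, h2, h3, h4, h5⟩ := hIDL G X (hyperfilter ℕ) ρ μ hyperfilter_le_cofinite hne hS hU'
  have h6 := hCLO G X (hyperfilter ℕ) ρ μ c hyperfilter_le_cofinite hS hT'
  exact hEXU G X (hyperfilter ℕ) ρ (IU (hyperfilter ℕ) μ) ⟨h1, h2, h3, h4, h5, h6⟩

end Pool.FDA
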