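import Pool.Agent.Work.MP_66343f_fd.Interface

/-!
# MP_66343f_al: block FDR (Theorem FD)
-/

set_option autoImplicit false

namespace Pool.FDA

open Pool.Agent.Work.MP_66343f_al Function Filter

theorem FDR_card (r : ℕ) : Nat.card (Option (Kt (Fin r ⊕ Unit))) = r + 5 := by
  rw [Nat.card_eq_fintype_card, Fintype.card_option, Fintype.card_sum, Fintype.card_sum,
    Fintype.card_fin, Fintype.card_fin, Fintype.card_unit]

theorem FDR_gen (G : Type) [Group G] [Group.FG G] :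
    ∃ (r : ℕ) (g : Fin (r + 2) → G), Subgroup.closure (Set.range g) = ⊤ := by
  obtain ⟨S, hS⟩ := Group.fg_def.mp ‹Group.FG G›
  obtain ⟨r, ⟨e⟩⟩ : ∃ r, Nonempty (S ≃ Fin r) := ⟨_, ⟨S.equivFin⟩⟩
  refine ⟨r, fun i : Fin (r + 2) => if h : (i : ℕ) < r then ((e.symm ⟨i, h⟩ : S) : G) else 1, ?_⟩
  rw [eq_top_iff, ← hS, Subgroup.closure_le]
  intro s hs
  apply Subgroup.subset_closure
  refine ⟨⟨e ⟨s, hs⟩, by omega⟩, ?_⟩
  simp

section
variable {G J : Type} [Group G] {Q : ℕ → Type} [∀ n, Group (Q n)]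

theorem FDR_le (U : Ultrafilter ℕ) (f : ∀ n, G →* Q n) (s : ℕ → J → G) :
    Rel U s ≤ (US U f s (fun _ => (⊥ : Subgroup (Q _)))).comap (MonoidHom.id _) := by
  intro w hw
  rw [mem_rel] at hw
  change ∀ᶠ n in (U : Filter ℕ), vl f s n w ∈ (⊥ : Subgroup (Q n))
  filter_upwards [hw] with n hn
  rw [Subgroup.mem_bot]
  change f n (FreeGroup.lift (s n) w) = 1
  rw [hn, map_one]

/-- the map of the limit group to the group generated in the ultraproduct of the quotients -/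
def FDR_F (U : Ultrafilter ℕ) (f : ∀ n, G →* Q n) (s : ℕ → J → G) : Lim U s →* KB U f s :=
  QuotientGroup.map _ _ (MonoidHom.id _) (FDR_le U f s)

theorem FDR_F_surj (U : Ultrafilter ℕ) (f : ∀ n, G →* Q n) (s : ℕ → J → G) :
    Surjective (FDR_F U f s) := by
  intro y
  obtain ⟨w, rfl⟩ := QuotientGroup.mk'_surjective _ y
  exact ⟨QuotientGroup.mk' _ w, rfl⟩

theorem FDR_ne_bot (U : Ultrafilter ℕ) (f : ∀ n, G →* Q n) (s : ℕ → J → G)
    (A : ∀ n, Subgroup (Q n)) (j : J)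
    (hj : ∀ n, vl f s n (FreeGroup.of j) ∈ A n ∧ vl f s n (FreeGroup.of j) ≠ 1) :
    AB U f s A ≠ ⊥ := by
  rw [Subgroup.ne_bot_iff_exists_ne_one]
  refine ⟨⟨mkB U f s (FreeGroup.of j), Subgroup.mem_map_of_mem _ ?_⟩, ?_⟩
  · exact Eventually.of_forall fun n => (hj n).1
  · intro h
    have h1 : mkB U f s (FreeGroup.of j) = 1 := congrArg Subtype.val h
    have h2 : FreeGroup.of j ∈ US U f s (fun _ => (⊥ : Subgroup (Q _))) :=
      (QuotientGroup.eq_one_iff _).mp h1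
    obtain ⟨n, hn⟩ := (mem_US.mp h2).exists
    rw [Subgroup.mem_bot] at hn
    exact (hj n).2 hn

end

/-- BLOCK FDR. -/
theorem p_FDR (h1 : Stmt_SUM) (_ : Stmt_CJN) (h3 : Stmt_INF) (h4 : Stmt_MAI) : Stmt_FDR := by
  intro G _ _ Q _ f hf A hA hcard hsum
  obtain ⟨r, g, hg⟩ := FDR_gen G
  have ha : ∀ n, ∃ x : G, f n x ∈ A n ∧ f n x ≠ 1 := by
    intro n
    obtain ⟨⟨a, ha⟩, ha1⟩ := Subgroup.ne_bot_iff_exists_ne_one.mp (hA n)
    obtain ⟨x, rfl⟩ := hf n a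
    exact ⟨x, ha, fun h => ha1 (Subtype.ext h)⟩
  choose x hx using ha
  have hUc : ((hyperfilter ℕ : Ultrafilter ℕ) : Filter ℕ) ≤ cofinite :=
    Filter.hyperfilter_le_cofinite
  have hj : ∀ n, vl f (DS.sn g x) n (FreeGroup.of (Sum.inr ())) ∈ A n ∧
      vl f (DS.sn g x) n (FreeGroup.of (Sum.inr ())) ≠ 1 := by
    intro n
    have h : vl f (DS.sn g x) n (FreeGroup.of (Sum.inr ())) = f n (x n) := by
      change f n (FreeGroup.lift (DS.sn g x n) (FreeGroup.of (Sum.inr ()))) = _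
      rw [FreeGroup.lift_apply_of]
      rfl
    rw [h]
    exact hx n
  obtain ⟨C⟩ := ds_of_sum (FDR_ne_bot (hyperfilter ℕ) f (DS.sn g x) A _ hj)
    (h3 G (Fin (r + 2)) (Fin (r + 2) ⊕ Unit) Q (hyperfilter ℕ) f (DS.sn g x) A hUc hf hsum g
      Sum.inl hg (fun _ _ => rfl) _ hj hcard)
    (h1 G (Fin (r + 2) ⊕ Unit) Q (hyperfilter ℕ) f (DS.sn g x) A hsum)
  obtain ⟨K, B, κ, hK, hB, hκ, k, hk, h5, h6, h7⟩ := h4 _ _ _ (Fin (r + 2) ⊕ Unit) C
    (FDR_F (hyperfilter ℕ) f (DS.sn g x)) (lg (hyperfilter ℕ) (DS.sn g x))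
    (FDR_F_surj _ _ _) (closure_lg _ _)
  have h8 : Preforms G K :=
    ((apx_lim (hyperfilter ℕ) (DS.sn g x) (DS.closure_sn g x hg)).trans
      (closure_lg _ (DS.sn g x)) h5).preforms hk
  have hm := FDR_card (r + 2)
  refine ⟨⟨_, ?_, .out h8 (.inc h6 (.out h7 (.iso 0 (MulEquiv.refl _))))⟩, ?_⟩
  · omega
  exact .out h8 (.inc h6 (.out h7 (.inc (f2_preforms _ (by omega)) (.iso 0 (MulEquiv.refl _)))))

end Pool.FDA
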