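import Pool.Agent.Work.MP_66343f_fd.Interface

/-!
# MP_66343f_al: block IDL
-/

set_option autoImplicit false

namespace Pool.FDA

open Pool.Agent.Work.MP_66343f_al Function Filter

theorem p_IDL : Stmt_IDL := by
  intro G _ X U ρ μ hU hX hS hμ
  refine ⟨?_, ?_, ?_, ?_, ?_⟩
  · rintro S S' hSS ⟨k, B, h1, h2⟩
    exact ⟨k, B, h1, fun p hp => h2 p (hSS hp)⟩
  · rintro S S' ⟨k, B, h1, h2⟩ ⟨k', B', h1', h2'⟩
    refine ⟨k + k', fun n => B n ∪ B' n, ?_, ?_⟩
    · filter_upwards [h1, h1'] with n a b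
      exact ((hS n).union _ _).trans (Nat.add_le_add a b)
    · rintro p (hp | hp)
      · exact (h2 p hp).mono fun n h => Or.inl h
      · exact (h2' p hp).mono fun n h => Or.inr h
  · intro x
    obtain ⟨p, rfl⟩ := Quotient.exists_rep x
    refine ⟨1, fun n => {p n}, Eventually.of_forall fun n => (hS n).point _, ?_⟩
    intro q hq
    have h1 : xu U q = xu U p := hq
    exact xu_eq.1 h1
  · rintro ⟨k, B, h1, h2⟩
    have h3 : ∀ᶠ n in (U : Filter ℕ), B n = Set.univ := by
      by_contra hne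
      rw [← Ultrafilter.eventually_not] at hne
      have h4 : ∀ n, ∃ q : X n, B n ≠ Set.univ → q ∉ B n := by
        intro n
        by_cases h : B n = Set.univ
        · obtain ⟨q⟩ := hX n
          exact ⟨q, fun h' => absurd h h'⟩
        · obtain ⟨q, hq⟩ := (Set.ne_univ_iff_exists_notMem _).1 h
          exact ⟨q, fun _ => hq⟩
      choose p hp using h4
      obtain ⟨n, ha, hb⟩ := (hne.and (h2 p (Set.mem_univ _))).exists
      exact hp n ha hb
    have h4 : ∀ᶠ n in (U : Filter ℕ), k < n := by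
      refine hU ?_
      rw [mem_cofinite]
      refine (Set.finite_Iic k).subset ?_
      intro n hn
      simpa using hn
    obtain ⟨n, ⟨ha, hb⟩, hc⟩ := ((h1.and h3).and h4).exists
    rw [hb] at ha
    exact absurd ((hμ n).trans ha) (not_le.2 hc)
  · rintro ⟨_, γ, rfl⟩ S ⟨k, B, h1, h2⟩
    refine ⟨k, fun n => ρ n (γ n) '' B n, ?_, ?_⟩
    · filter_upwards [h1] with n h
      rw [(hS n).inv]
      exact h
    · rintro p ⟨y, hy, hyp⟩
      obtain ⟨q, rfl⟩ := Quotient.exists_rep y
      have h3 : xu U (fun n => ρ n (γ n) (q n)) = xu U p := hyp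
      filter_upwards [xu_eq.1 h3, h2 q hy] with n ha hb
      exact ⟨q n, hb, ha⟩

end Pool.FDA
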