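import Pool.Agent.Work.MP_66343f_fd.Interface

/-!
# MP_66343f_al: block INF, infinitely many conjugates in the limit
-/

set_option autoImplicit false

namespace Pool.FDA

open Pool.Agent.Work.MP_66343f_al Function Filter

theorem p_INF (hCJN : Stmt_CJN) : Stmt_INF := by
  intro G I J _ _ Q _ U f s A hU hf hS g e hg he j hj hcard
  classical
  by_contra hcon
  rw [Set.not_infinite] at hcon
  have hfin : Finite (Set.range (cj (AB U f s A))) := hcon.to_subtype
  have hV : ∀ r : Set.range (cj (AB U f s A)), ∃ v : FreeGroup J,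
      cj (AB U f s A) (mkB U f s v) = r.1 := by
    rintro ⟨_, q, rfl⟩
    obtain ⟨v, rfl⟩ := QuotientGroup.mk'_surjective _ q
    exact ⟨v, rfl⟩
  choose V hV using hV
  have key : ∀ w : FreeGroup J, ∃ r' : Set.range (cj (AB U f s A)),
      ∀ᶠ n in (U : Filter ℕ), cj (A n) (vl f s n w) = cj (A n) (vl f s n (V r')) := by
    intro w
    refine ⟨⟨cj (AB U f s A) (mkB U f s w), ⟨_, rfl⟩⟩, ?_⟩
    exact hCJN G J Q U f s A hS j hj _ _ (hV ⟨_, ⟨_, rfl⟩⟩).symm
  let S : ∀ n, Set (Subgroup (Q n)) := fun n =>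
    Set.range (fun r : Set.range (cj (AB U f s A)) => cj (A n) (vl f s n (V r)))
  have h0 : ∀ᶠ n in (U : Filter ℕ), A n ∈ S n := by
    obtain ⟨r', hr'⟩ := key 1
    filter_upwards [hr'] with n hn
    refine ⟨r', ?_⟩
    show cj (A n) (vl f s n (V r')) = A n
    rw [← hn, map_one, cj_one]
  have h1 : ∀ w : FreeGroup J, ∀ᶠ n in (U : Filter ℕ), ∀ B ∈ S n,
      cj B (vl f s n w) ∈ S n := by
    intro w
    have h2 : ∀ᶠ n in (U : Filter ℕ), ∀ r : Set.range (cj (AB U f s A)),
        cj (A n) (vl f s n (w * V r)) ∈ S n := by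
      rw [eventually_all]
      intro r
      obtain ⟨r', hr'⟩ := key (w * V r)
      filter_upwards [hr'] with n hn
      exact ⟨r', hn.symm⟩
    filter_upwards [h2] with n hn
    rintro _ ⟨r, rfl⟩
    show cj (cj (A n) (vl f s n (V r))) (vl f s n w) ∈ S n
    rw [cj_cj, ← map_mul]
    exact hn r
  have h3 : ∀ᶠ n in (U : Filter ℕ), ∀ i : I,
      (∀ B ∈ S n, cj B (vl f s n (FreeGroup.of (e i))) ∈ S n) ∧
        ∀ B ∈ S n, cj B (vl f s n (FreeGroup.of (e i))⁻¹) ∈ S n := by
    rw [eventually_all]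
    intro i
    exact (h1 _).and (h1 _)
  have h4 : ∀ᶠ n in (U : Filter ℕ), Nat.card (Set.range (cj (AB U f s A))) < n := by
    have h6 := hU ((Set.finite_Iic (Nat.card (Set.range (cj (AB U f s A))))).compl_mem_cofinite)
    filter_upwards [h6] with n hn
    simpa using hn
  obtain ⟨n, ⟨hn0, hn3⟩, hn4⟩ := ((h0.and h3).and h4).exists
  have hgi : ∀ i : I, vl f s n (FreeGroup.of (e i)) = f n (g i) := by
    intro i
    show f n (FreeGroup.lift (s n) (FreeGroup.of (e i))) = f n (g i)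
    rw [FreeGroup.lift_apply_of, he]
  have h5 : ∀ q : Q n, (∀ B ∈ S n, cj B q ∈ S n) ∧ ∀ B ∈ S n, cj B q⁻¹ ∈ S n := by
    intro q
    have hq : q ∈ Subgroup.closure (Set.range fun i => f n (g i)) := by
      obtain ⟨x, rfl⟩ := hf n q
      have hx : x ∈ Subgroup.closure (Set.range g) := hg ▸ Subgroup.mem_top x
      have h7 := Subgroup.mem_map_of_mem (f n) hx
      rwa [MonoidHom.map_closure, ← Set.range_comp] at h7
    refine Subgroup.closure_induction
      (p := fun q _ => (∀ B ∈ S n, cj B q ∈ S n) ∧ ∀ B ∈ S n, cj B q⁻¹ ∈ S n) ?_ ?_ ?_ ?_ hq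
    · rintro _ ⟨i, rfl⟩
      have h8 := hn3 i
      rw [map_inv, hgi] at h8
      exact h8
    · refine ⟨fun B hB => ?_, fun B hB => ?_⟩
      · rw [cj_one]
        exact hB
      · rw [inv_one, cj_one]
        exact hB
    · rintro x y _ _ ⟨hx, hx'⟩ ⟨hy, hy'⟩
      refine ⟨fun B hB => ?_, fun B hB => ?_⟩
      · rw [← cj_cj]
        exact hx _ (hy _ hB)
      · rw [mul_inv_rev, ← cj_cj]
        exact hy' _ (hx' _ hB)
    · rintro x _ ⟨hx, hx'⟩
      refine ⟨hx', fun B hB => ?_⟩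
      rw [inv_inv]
      exact hx _ hB
  have h9 : Set.range (cj (A n)) ⊆ S n := by
    rintro _ ⟨q, rfl⟩
    exact (h5 q).1 _ hn0
  have h10 : (S n).encard ≤ (Nat.card (Set.range (cj (AB U f s A))) : ℕ∞) := by
    show (Set.range (fun r : Set.range (cj (AB U f s A)) =>
      cj (A n) (vl f s n (V r)))).encard ≤ _
    rw [← Set.image_univ]
    refine (Set.encard_image_le _ _).trans ?_
    rw [Set.encard_univ, ENat.card_eq_coe_natCard]
  have h11 := (hcard n).trans ((Set.encard_le_encard h9).trans h10)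
  rw [Nat.cast_le] at h11
  exact absurd hn4 (not_lt.2 h11)

end Pool.FDA
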