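import Pool.Agent.Work.MP_66343f_fd.Interface

/-!
# MP_66343f_al: block MAB
-/

set_option autoImplicit false

namespace Pool.FDA

open Pool.Agent.Work.MP_66343f_al Function Filter

theorem p_MAB : Stmt_MAB := by
  intro G J _ Q _ U f s A w
  constructor
  · rintro ⟨w', hw', h⟩
    obtain ⟨z, hz, rfl⟩ := (QuotientGroup.mk'_eq_mk' _).1 h
    have h1 : ∀ᶠ n in (U : Filter ℕ), vl f s n w' ∈ A n := hw'
    have h2 : ∀ᶠ n in (U : Filter ℕ), vl f s n z ∈ (⊥ : Subgroup (Q n)) := hz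
    filter_upwards [h1, h2] with n h3 h4
    rw [map_mul, Subgroup.mem_bot.1 h4, mul_one]
    exact h3
  · intro h
    exact Subgroup.mem_map_of_mem _ (mem_US.2 h)

end Pool.FDA
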