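import Pool.Agent.Work.MP_66343f_fd.Interface

/-!
# MP_66343f_al: block MAI
-/

set_option autoImplicit false

namespace Pool.FDA

open Pool.Agent.Work.MP_66343f_al Function Filter

theorem p_MAI : Stmt_MAI := by
  intro K0 Q X I _ _ _ C f g hf hg
  set ι := (C.hinf C.p0).natEmbedding
  have h1 : ∀ n, ∃ q, C.act q C.p0 = (ι n : X) := fun n => (ι n).2
  choose q hq using h1
  have h2 : ∀ n, ∃ a, f a = q n * C.x0 * (q n)⁻¹ := fun n => hf _
  choose xt hxt using h2
  have hx : ∀ n, f (xt n) ∈ C.N (ι n : X) := by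
    intro n
    rw [hxt, ← hq]
    exact C.hN _ _ _ C.hx0
  have hx1 : ∀ n, f (xt n) ≠ 1 := by
    intro n h
    rw [hxt] at h
    have h3 := congrArg (fun a => (q n)⁻¹ * a * q n) h
    simp only [mul_one, inv_mul_cancel] at h3
    apply C.hx1
    rw [← h3]
    group
  have hpt : Injective fun n => (ι n : X) := Subtype.val_injective.comp ι.injective
  have hU : ((Filter.hyperfilter ℕ : Ultrafilter ℕ) : Filter ℕ) ≤ cofinite :=
    Filter.hyperfilter_le_cofinite
  obtain ⟨K, B, hK, hB, k, hk, h1, h2, h3⟩ :=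
    (C.toTCfg f g xt (fun n => (ι n : X)) _ hf hg hx hx1 hpt hU).main
  exact ⟨K, B, Kt I, hK, hB, inferInstance, k, hk,
    (apx_lim _ (DS.sn g xt) (DS.closure_sn g xt hg)).trans (closure_lg _ (DS.sn g xt)) h1, h2, h3⟩

end Pool.FDA
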