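import Pool.Agent.Work.MP_66343f_fd.Interface

set_option autoImplicit false

namespace Pool.FDA

open Pool.Agent.Work.MP_66343f_al Function Filter

theorem SUM_one {G J : Type} [Group G] {Q : ℕ → Type} [∀ n, Group (Q n)]
    (U : Ultrafilter ℕ) (f : ∀ n, G →* Q n) (s : ℕ → J → G) (w : FreeGroup J)
    (h : ∀ᶠ n in (U : Filter ℕ), vl f s n w = 1) : mkB U f s w = 1 := by
  rw [mkB, QuotientGroup.mk'_apply, QuotientGroup.eq_one_iff, mem_US]
  filter_upwards [h] with n hn
  rw [Subgroup.mem_bot]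
  exact hn

theorem p_SUM (hMAB : Stmt_MAB) (hCJE : Stmt_CJE) : Stmt_SUM := by
  intro G J _ Q _ U f s A hA
  have hmk : ∀ q : KB U f s, ∃ v : FreeGroup J, mkB U f s v = q := fun q =>
    QuotientGroup.mk'_surjective _ q
  have hne : ∀ v : FreeGroup J, cj (AB U f s A) (mkB U f s v) ≠ AB U f s A →
      ∀ᶠ n in (U : Filter ℕ), cj (A n) (vl f s n v) ≠ A n := by
    intro v hv
    rw [Ultrafilter.eventually_not]
    intro h
    apply hv
    have h1 := (hCJE G J Q U f s A).2 v 1 (by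
      filter_upwards [h] with n hn
      rw [map_one, cj_one]
      exact hn)
    rw [h1]
    have h2 : mkB U f s 1 = 1 := map_one _
    rw [h2, cj_one]
  refine ⟨?_, ?_⟩
  · intro q hq a ha b hb
    obtain ⟨v, rfl⟩ := hmk q
    obtain ⟨w, rfl⟩ := hmk a
    obtain ⟨w', rfl⟩ := hmk b
    have h1 := (hMAB G J Q U f s A w).1 ha
    have h2 := ((hCJE G J Q U f s A).1 v w').1 hb
    have h3 : mkB U f s (w * w' * (w' * w)⁻¹) = 1 := by
      apply SUM_one
      filter_upwards [hne v hq, h1, h2] with n e1 e2 e3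
      rw [map_mul, map_inv, map_mul, map_mul, (hA n).comm _ e1 _ e2 _ e3, mul_inv_cancel]
    have h4 : mkB U f s (w * w' * (w' * w)⁻¹) =
        mkB U f s w * mkB U f s w' * (mkB U f s w' * mkB U f s w)⁻¹ := by
      simp only [mkB, map_mul, map_inv]
    rw [h4] at h3
    exact mul_inv_eq_one.1 h3
  · intro a ha hcl
    have hle : Subgroup.closure {b | ∃ q, cj (AB U f s A) q ≠ AB U f s A ∧
        b ∈ cj (AB U f s A) q} ≤ AB U f s (fun n => Subgroup.closure {b | ∃ q,
          cj (A n) q ≠ A n ∧ b ∈ cj (A n) q}) := by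
      rw [Subgroup.closure_le]
      rintro b ⟨q, hq, hb⟩
      obtain ⟨v, rfl⟩ := hmk q
      obtain ⟨w, rfl⟩ := hmk b
      rw [SetLike.mem_coe, hMAB]
      filter_upwards [hne v hq, ((hCJE G J Q U f s A).1 v w).1 hb] with n e1 e2
      exact Subgroup.subset_closure ⟨_, e1, e2⟩
    have hcl' := hle hcl
    obtain ⟨w, rfl⟩ := hmk a
    have h1 := (hMAB G J Q U f s A w).1 ha
    have h2 := (hMAB G J Q U f s _ w).1 hcl'
    apply SUM_one
    filter_upwards [h1, h2] with n e1 e2
    exact (hA n).indep _ e1 e2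

end Pool.FDA
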