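import Pool.Agent.Work.MP_66343f_al.DSum4

/-!
# MP_66343f_al: sequences of quotients of a finitely generated group, definitions

Part FD: sequences of quotients with large direct products of conjugate subgroups.
Part FA: sequences of actions on finite sets in which the stabilisers of small sets have large orbits.
-/

set_option autoImplicit false

namespace Pool.FDA

open Pool.Agent.Work.MP_66343f_al Function Filter

/-! ## Part FD -/

section FD

variable {G J : Type} [Group G] {Q : ℕ → Type} [∀ n, Group (Q n)]

/-- the value of the word `w` in the tuple `s n`, in the quotient `Q n` -/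
def vl (f : ∀ n, G →* Q n) (s : ℕ → J → G) (n : ℕ) : FreeGroup J →* Q n :=
  (f n).comp (FreeGroup.lift (s n))

/-- the words whose values in `Q n` are in `P n` for almost all `n` -/
def US (U : Ultrafilter ℕ) (f : ∀ n, G →* Q n) (s : ℕ → J → G) (P : ∀ n, Subgroup (Q n)) :
    Subgroup (FreeGroup J) where
  carrier := {w | ∀ᶠ n in (U : Filter ℕ), vl f s n w ∈ P n}
  mul_mem' := by
    intro a b ha hb
    filter_upwards [ha, hb] with n h1 h2
    rw [map_mul]
    exact mul_mem h1 h2
  one_mem' := Eventually.of_forall fun n => by rw [map_one]; exact one_mem _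
  inv_mem' := by
    intro a ha
    filter_upwards [ha] with n h1
    rw [map_inv]
    exact inv_mem h1

theorem mem_US {U : Ultrafilter ℕ} {f : ∀ n, G →* Q n} {s : ℕ → J → G} {P : ∀ n, Subgroup (Q n)}
    {w : FreeGroup J} : w ∈ US U f s P ↔ ∀ᶠ n in (U : Filter ℕ), vl f s n w ∈ P n := Iff.rfl

instance normal_US (U : Ultrafilter ℕ) (f : ∀ n, G →* Q n) (s : ℕ → J → G) :
    (US U f s (fun _ => (⊥ : Subgroup (Q _)))).Normal where
  conj_mem := by
    intro w hw g
    rw [mem_US] at hw ⊢
    filter_upwards [hw] with n h1
    rw [Subgroup.mem_bot] at h1 ⊢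
    rw [map_mul, map_mul, h1, map_inv, mul_one, mul_inv_cancel]

/-- the group generated by the images of the tuples in the ultraproduct of the quotients -/
abbrev KB (U : Ultrafilter ℕ) (f : ∀ n, G →* Q n) (s : ℕ → J → G) : Type :=
  FreeGroup J ⧸ US U f s (fun _ => (⊥ : Subgroup (Q _)))

/-- the image of a word -/
abbrev mkB (U : Ultrafilter ℕ) (f : ∀ n, G →* Q n) (s : ℕ → J → G) (w : FreeGroup J) : KB U f s :=
  QuotientGroup.mk' (US U f s (fun _ => (⊥ : Subgroup (Q _)))) w

/-- the intersection with the ultraproduct of the subgroups `A n` -/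
def AB (U : Ultrafilter ℕ) (f : ∀ n, G →* Q n) (s : ℕ → J → G) (A : ∀ n, Subgroup (Q n)) :
    Subgroup (KB U f s) :=
  (US U f s A).map (QuotientGroup.mk' (US U f s (fun _ => (⊥ : Subgroup (Q _)))))

end FD

/-! ## Part FA -/

section FA

/-- A size for the subsets of a set with an action: a monotone, subadditive and invariant function
which is at most one at the points. -/
structure Size {G X : Type} [Group G] (ρ : G →* Equiv.Perm X) (μ : Set X → ℕ) : Prop where
  mono : ∀ S S' : Set X, S ⊆ S' → μ S ≤ μ S'
  union : ∀ S S' : Set X, μ (S ∪ S') ≤ μ S + μ S'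
  point : ∀ x : X, μ {x} ≤ 1
  inv : ∀ (g : G) (S : Set X), μ (ρ g '' S) = μ S

/-- For every `N` there are an action of `G` on a finite set `X` and a size `μ` on `X`, with
`μ(X) ≥ N`, such that for every `T ⊆ X` with at most `N` points the set of the points whose orbit
under the pointwise stabiliser of `T` has size less than `N` has size at most `c(|T|)`. -/
def LargeFiniteActions (G : Type) [Group G] (c : ℕ → ℕ) : Prop :=
  ∀ N : ℕ, ∃ (X : Type) (_ : Finite X) (ρ : G →* Equiv.Perm X) (μ : Set X → ℕ), Size ρ μ ∧
    N ≤ μ Set.univ ∧ ∀ T : Set X, T.ncard ≤ N → μ {p | μ (orbS ρ T p) < N} ≤ c T.ncard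

variable {G : Type} [Group G] {X : ℕ → Type}

/-- almost everywhere equal sequences of points -/
def ustd (U : Ultrafilter ℕ) (X : ℕ → Type) : Setoid (∀ n, X n) where
  r a b := ∀ᶠ n in (U : Filter ℕ), a n = b n
  iseqv :=
    { refl := fun _ => Eventually.of_forall fun _ => rfl
      symm := fun h => h.mono fun _ h1 => h1.symm
      trans := fun h h' => (h.and h').mono fun _ h1 => h1.1.trans h1.2 }

/-- the ultraproduct of the sets `X n` -/
def XU (U : Ultrafilter ℕ) (X : ℕ → Type) : Type := Quotient (ustd U X)

/-- the class of a sequence -/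
def xu (U : Ultrafilter ℕ) (p : ∀ n, X n) : XU U X := Quotient.mk (ustd U X) p

theorem xu_eq {U : Ultrafilter ℕ} {p q : ∀ n, X n} :
    xu U p = xu U q ↔ ∀ᶠ n in (U : Filter ℕ), p n = q n := Quotient.eq (r := ustd U X)

/-- the action of a sequence of elements of the group -/
def actU (U : Ultrafilter ℕ) (ρ : ∀ n, G →* Equiv.Perm (X n)) : (ℕ → G) →* Equiv.Perm (XU U X) where
  toFun γ :=
    { toFun := Quotient.map' (s₁ := ustd U X) (s₂ := ustd U X) (fun p n => ρ n (γ n) (p n))
        (fun a b h => (show ∀ᶠ n in (U : Filter ℕ), a n = b n from h).mono fun n h1 => by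
          change ρ n (γ n) (a n) = ρ n (γ n) (b n)
          rw [h1])
      invFun := Quotient.map' (s₁ := ustd U X) (s₂ := ustd U X) (fun p n => ρ n (γ n)⁻¹ (p n))
        (fun a b h => (show ∀ᶠ n in (U : Filter ℕ), a n = b n from h).mono fun n h1 => by
          change ρ n (γ n)⁻¹ (a n) = ρ n (γ n)⁻¹ (b n)
          rw [h1])
      left_inv := by
        intro x
        induction x using Quotient.inductionOn' with
        | h p =>
          change xu U _ = xu U _
          rw [xu_eq]
          refine Eventually.of_forall fun n => ?_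
          simp
      right_inv := by
        intro x
        induction x using Quotient.inductionOn' with
        | h p =>
          change xu U _ = xu U _
          rw [xu_eq]
          refine Eventually.of_forall fun n => ?_
          simp }
  map_one' := by
    ext x
    induction x using Quotient.inductionOn' with
    | h p =>
      change xu U _ = xu U _
      rw [xu_eq]
      refine Eventually.of_forall fun n => ?_
      simp
  map_mul' := by
    intro a b
    ext x
    induction x using Quotient.inductionOn' with
    | h p =>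
      change xu U _ = xu U _
      rw [xu_eq]
      refine Eventually.of_forall fun n => ?_
      simp

theorem actU_xu (U : Ultrafilter ℕ) (ρ : ∀ n, G →* Equiv.Perm (X n)) (γ : ℕ → G)
    (p : ∀ n, X n) : actU U ρ γ (xu U p) = xu U (fun n => ρ n (γ n) (p n)) := rfl

/-- the group of the permutations of the ultraproduct given by sequences of elements -/
abbrev PU (U : Ultrafilter ℕ) (ρ : ∀ n, G →* Equiv.Perm (X n)) : Subgroup (Equiv.Perm (XU U X)) :=
  (actU U ρ).range

/-- the sets contained in an internal set of bounded size -/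
def IU (U : Ultrafilter ℕ) (μ : ∀ n, Set (X n) → ℕ) : Set (Set (XU U X)) :=
  {S | ∃ (k : ℕ) (B : ∀ n, Set (X n)), (∀ᶠ n in (U : Filter ℕ), μ n (B n) ≤ k) ∧
    ∀ p : ∀ n, X n, xu U p ∈ S → ∀ᶠ n in (U : Filter ℕ), p n ∈ B n}

/-- finitely many mixed words without backtracking are simultaneously nontrivial in `G` -/
def MX (G : Type) [Group G] : Prop :=
  ∀ (J : Type) (Ws : List (List (G × (J × Bool)))), (∀ W ∈ Ws, NB W ∧ W ≠ []) →
    ∃ u : J → G, ∀ W ∈ Ws, mv u W ≠ 1

end FA

end Pool.FDA
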