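import Pool.Agent.Work.MP_66343f_fd.B_MAB
import Pool.Agent.Work.MP_66343f_fd.B_CJE
import Pool.Agent.Work.MP_66343f_fd.B_SUM
import Pool.Agent.Work.MP_66343f_fd.B_CJN
import Pool.Agent.Work.MP_66343f_fd.B_INF
import Pool.Agent.Work.MP_66343f_fd.B_MAI
import Pool.Agent.Work.MP_66343f_fd.B_FDR
import Pool.Agent.Work.MP_66343f_fd.B_IDL
import Pool.Agent.Work.MP_66343f_fd.B_CLO
import Pool.Agent.Work.MP_66343f_fd.B_EXU
import Pool.Agent.Work.MP_66343f_fd.B_APX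
import Pool.Agent.Work.MP_66343f_fd.B_EXA
import Pool.Agent.Work.MP_66343f_fd.B_FAR

/-!
# MP_66343f_al: sequences of quotients, assembly
-/

set_option autoImplicit false

namespace Pool.FDA

open Pool.Agent.Work.MP_66343f_al Function Filter

theorem products_in_quotients {G : Type} [Group G] [Group.FG G] (Q : ℕ → Type) [∀ n, Group (Q n)]
    (f : ∀ n, G →* Q n) (hf : ∀ n, Surjective (f n)) (A : ∀ n, Subgroup (Q n))
    (hA : ∀ n, A n ≠ ⊥) (hcard : ∀ n : ℕ, (n : ℕ∞) ≤ (Set.range (cj (A n))).encard)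
    (h : ∀ n, SumOfConjugates (A n)) :
    (∃ m ≥ 2, DistLE 3 G (FreeGroup (Fin m))) ∧ DistLE 4 G (FreeGroup (Fin 2)) := by
  have hMAB : Stmt_MAB := p_MAB
  have hCJE : Stmt_CJE := p_CJE hMAB
  have hSUM : Stmt_SUM := p_SUM hMAB hCJE
  have hCJN : Stmt_CJN := p_CJN hMAB hCJE
  have hINF : Stmt_INF := p_INF hCJN
  exact p_FDR hSUM hCJN hINF p_MAI G Q f hf A hA hcard h

theorem large_finite_actions {G : Type} [Group G] [Group.FG G] (c : ℕ → ℕ)
    (h : LargeFiniteActions G c) :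
    (∃ m0 : ℕ, ∀ m ≥ m0, Preforms G (FreeGroup (Fin m))) ∧ DistLE 2 G (FreeGroup (Fin 2)) :=
  p_FAR p_IDL p_CLO p_EXU p_APX G c h

end Pool.FDA
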