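import Pool.Agent.Work.MP_66343f_fd.Defs

/-!
# MP_66343f_al: sequences of quotients, block statements

File of the block `X`: `Pool/Agent/Work/MP_66343f_fd/B_X.lean`, import this file, namespace `Pool.FDA`,
`open Pool.Agent.Work.MP_66343f_al Function Filter`, `theorem p_X (h1 : Stmt_Y) … : Stmt_X` with exactly
the blocks of the column uses; auxiliary lemmas prefixed `X_`.
-/

set_option autoImplicit false

namespace Pool.FDA

open Pool.Agent.Work.MP_66343f_al Function Filter

/-! ## Part FD. Below `v_n` is short for `vl f s n v`. -/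

/-- MAB (30 lines). Membership in `AB`.
Proof. `US (⊥) ≤ US A`: if `w` and `w'` have the same image then `w⁻¹ w' ∈ US ⊥ ≤ US A`
(`Subgroup.mem_map`, `QuotientGroup.mk'_eq_mk'`, `filter_upwards`; `⊥ ≤ A n`). -/
def Stmt_MAB : Prop := ∀ (G J : Type) [Group G] (Q : ℕ → Type) [∀ n, Group (Q n)]
  (U : Ultrafilter ℕ) (f : ∀ n, G →* Q n) (s : ℕ → J → G) (A : ∀ n, Subgroup (Q n))
  (w : FreeGroup J), mkB U f s w ∈ AB U f s A ↔ ∀ᶠ n in (U : Filter ℕ), vl f s n w ∈ A n

/-- CJE (60 lines, uses MAB). Equal conjugates.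
Proof. `mem_cj`: `x ∈ cj (AB) (mk v) ↔ mk v⁻¹ * x * mk v ∈ AB`; every `x` is `mk w`
(`QuotientGroup.mk'_surjective`), so `x ∈ cj (AB) (mk v)` iff for almost all `n`
`v_n⁻¹ w_n v_n ∈ A n` (MAB, `map_mul`, `map_inv`) iff for almost all `n` `w_n ∈ cj (A n) v_n`.  If
`cj (A n) v_n = cj (A n) v'_n` for almost all `n` the two conditions are equivalent. -/
def Stmt_CJE : Prop := ∀ (G J : Type) [Group G] (Q : ℕ → Type) [∀ n, Group (Q n)]
  (U : Ultrafilter ℕ) (f : ∀ n, G →* Q n) (s : ℕ → J → G) (A : ∀ n, Subgroup (Q n)),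
  (∀ v w : FreeGroup J, mkB U f s w ∈ cj (AB U f s A) (mkB U f s v) ↔
    ∀ᶠ n in (U : Filter ℕ), vl f s n w ∈ cj (A n) (vl f s n v)) ∧
  ∀ v v' : FreeGroup J, (∀ᶠ n in (U : Filter ℕ), cj (A n) (vl f s n v) = cj (A n) (vl f s n v')) →
    cj (AB U f s A) (mkB U f s v) = cj (AB U f s A) (mkB U f s v')

/-- SUM (120 lines, uses MAB CJE). The direct sum property passes to the limit.
Proof. `cj AB (mk v) ≠ AB` (`= cj AB (mk 1)`, `cj_one`) implies, by CJE and
`Ultrafilter.eventually_not` / `Ultrafilter.em`, that `cj (A n) v_n ≠ A n` for almost all `n`.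
`comm`: `a = mk w`, `b = mk w'`, for almost all `n` `w_n ∈ A n`, `w'_n ∈ cj (A n) v_n`, so they
commute; `w w' (w' w)⁻¹ ∈ US ⊥`, so `a b = b a` (`QuotientGroup.mk'_eq_mk'` or
`QuotientGroup.eq_one_iff` after `mul_inv_eq_one`).
`indep`: let `C n = closure {b | ∃ q, cj (A n) q ≠ A n ∧ b ∈ cj (A n) q}`; then
`closure {b | ∃ q, cj AB q ≠ AB ∧ b ∈ cj AB q} ≤ AB U f s C` (`Subgroup.closure_le`: write `q = mk v`,
`b = mk w`, CJE and MAB for `C`).  So for `a = mk w` in both, `w_n ∈ A n` and `w_n ∈ C n` for almost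
all `n` (MAB for `A` and for `C`), so `w_n = 1` by `SumOfConjugates.indep`, `w ∈ US ⊥`, `a = 1`. -/
def Stmt_SUM : Prop := ∀ (G J : Type) [Group G] (Q : ℕ → Type) [∀ n, Group (Q n)]
  (U : Ultrafilter ℕ) (f : ∀ n, G →* Q n) (s : ℕ → J → G) (A : ∀ n, Subgroup (Q n)),
  (∀ n, SumOfConjugates (A n)) → SumOfConjugates (AB U f s A)

/-- CJN (60 lines, uses MAB CJE). Different conjugates.
Proof. Suppose `cj AB (mk v) = cj AB (mk v')` but not `cj (A n) v_n = cj (A n) v'_n` for almost all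
`n`; then `cj (A n) v_n ≠ cj (A n) v'_n` for almost all `n` (`Ultrafilter.eventually_not`).  Let
`x = of j`, `w = v x v⁻¹`.  `mk w ∈ cj AB (mk v)` (CJE; `w_n = v_n x_n v_n⁻¹`, `mem_cj`), so
`mk w ∈ cj AB (mk v')`, so for almost all `n`: `v'_n⁻¹ v_n x_n v_n⁻¹ v'_n ∈ A n`.  Put
`q = v_n⁻¹ v'_n`: `x_n ∈ A n` and `x_n ∈ cj (A n) q`, `cj (A n) q ≠ A n` (otherwise
`cj (A n) v'_n = cj (cj (A n) q) v_n = cj (A n) v_n`, `cj_cj`), so `x_n = 1` by
`SumOfConjugates.indep` (`Subgroup.subset_closure`), a contradiction. -/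
def Stmt_CJN : Prop := ∀ (G J : Type) [Group G] (Q : ℕ → Type) [∀ n, Group (Q n)]
  (U : Ultrafilter ℕ) (f : ∀ n, G →* Q n) (s : ℕ → J → G) (A : ∀ n, Subgroup (Q n)),
  (∀ n, SumOfConjugates (A n)) →
  ∀ j : J, (∀ n, vl f s n (FreeGroup.of j) ∈ A n ∧ vl f s n (FreeGroup.of j) ≠ 1) →
  ∀ v v' : FreeGroup J, cj (AB U f s A) (mkB U f s v) = cj (AB U f s A) (mkB U f s v') →
    ∀ᶠ n in (U : Filter ℕ), cj (A n) (vl f s n v) = cj (A n) (vl f s n v')

/-- INF (120 lines, uses CJN). Infinitely many conjugates.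
Proof. Suppose the set `R = range (cj AB)` is finite.  For `r ∈ R` choose `v_r` in the free group
with `cj AB (mk v_r) = r` (`QuotientGroup.mk'_surjective`), in particular for `r₀ = AB = cj AB 1`.
For `i : I` and `ε = ±1` and `r ∈ R`: `cj AB (mk ((of (e i))^ε * v_r)) = r' ∈ R`, so
`= cj AB (mk v_(r'))`; CJN: for almost all `n`
`cj (A n) ((f n (g i))^ε * v_(r,n)) = cj (A n) v_(r',n)` (`vl f s n (of (e i)) = f n (g i)`).
Also `cj (A n) v_(r₀,n) = A n` for almost all `n` (CJN with `1`).  These are finitely many conditions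
(`I` and `R` are finite; `Filter.eventually_all`), so for almost all `n` the finite set
`S_n = {cj (A n) v_(r,n) : r ∈ R}` contains `A n` and is closed under `B ↦ cj B (f n (g i))^ε`
(`cj_cj`), so under `B ↦ cj B q` for all `q ∈ closure {f n (g i)} = ⊤` (`Subgroup.closure_induction`
for the property `∀ B ∈ S_n, cj B q ∈ S_n`; `hf`, `hg`, `MonoidHom.map_closure`).  So
`range (cj (A n)) ⊆ S_n` has at most `|R|` elements (`Set.encard_le_encard`), for almost all `n`;
`U` contains the cofinite sets, so there is such an `n > |R|`, a contradiction to `hcard`. -/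
def Stmt_INF : Prop := ∀ (G I J : Type) [Group G] [Finite I] (Q : ℕ → Type) [∀ n, Group (Q n)]
  (U : Ultrafilter ℕ) (f : ∀ n, G →* Q n) (s : ℕ → J → G) (A : ∀ n, Subgroup (Q n)),
  (U : Filter ℕ) ≤ cofinite → (∀ n, Surjective (f n)) → (∀ n, SumOfConjugates (A n)) →
  ∀ (g : I → G) (e : I → J), Subgroup.closure (Set.range g) = ⊤ → (∀ n i, s n (e i) = g i) →
  ∀ j : J, (∀ n, vl f s n (FreeGroup.of j) ∈ A n ∧ vl f s n (FreeGroup.of j) ≠ 1) →
  (∀ n : ℕ, (n : ℕ∞) ≤ (Set.range (cj (A n))).encard) → (Set.range (cj (AB U f s A))).Infinite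

/-- MAI (60 lines). The first part of `DS.main` (`Pool/Agent/Work/MP_66343f_al/DSum3.lean`) in terms of
approximations.
Proof. Copy the proof of `DS.main`: the same `ι`, `q`, `xt`, `hx`, `hx1`, `hpt`, `hU`, and
`obtain ⟨K, B, hK, hB, k, hk, h1, h2, h3⟩ := (C.toTCfg …).main`; the generating tuple is `k`, and
`Apx K0 k` is `Apx.trans (closure_lg _ (sn g xt)) (apx_lim _ (sn g xt) (closure_sn g xt hg)) h1`; the
index type of `k` is the one of `TCfg.main` (finite). -/
def Stmt_MAI : Prop := ∀ (K0 Q X I : Type) [Group K0] [Group Q] [Finite I] (_ : DS Q X) (f : K0 →* Q)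
  (g : I → K0), Surjective f → Subgroup.closure (Set.range g) = ⊤ →
  ∃ (K B κ : Type) (_ : Group K) (_ : Group B) (_ : Finite κ) (k : κ → K),
    Subgroup.closure (Set.range k) = ⊤ ∧ Apx K0 k ∧ Preforms B K ∧
    Preforms B (FreeGroup (Fin (Nat.card (Option (Kt I)))))

/-- FDR (120 lines, uses SUM CJN INF MAI). Theorem FD.
Proof. As in `DS.component`: a generating tuple `g : Fin (r + 2) → G`.  Choose `a n ∈ A n`, `a n ≠ 1`
(`Subgroup.ne_bot_iff_exists_ne_one`) and `x n` with `f n (x n) = a n`; `s n = sn g x n` on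
`J = Fin (r + 2) ⊕ Unit` (`sn` of DSum2.lean: `Sum.elim g fun _ => x n`; `vl f s n (of (inr ())) = a n`);
`U = hyperfilter ℕ`.  `K0 = Lim U s` is approximated: `apx_lim U s (closure_sn g x hg)`.
The map `F : K0 →* KB U f s` is `QuotientGroup.map` / `QuotientGroup.lift` of the identity of the free
group (`Rel U s ≤ US U f s ⊥`: if `lift (s n) w = 1` then `vl f s n w = 1`), surjective.
`AB` is not `⊥` (if `mk (of (inr ())) = 1` then `a n = 1` for almost all `n`; MAB is not needed: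
`Subgroup.mem_map_of_mem`), `SumOfConjugates AB` by SUM, infinite by INF; `ds_of_sum` gives a `DS`.
MAI for `K0`, `F` and the generators `lg U s` (`closure_lg`): `K, B, k`.  `Preforms G K` by
`Apx.preforms _ (Apx.trans (closure_lg U s) (apx_lim …) _)`; then finish as in `DS.component`:
`.out h1 (.inc h2 (.out h3 (.iso 0 (MulEquiv.refl _))))` and with `f2_preforms`.  The number
`m = Nat.card (Option (Kt (Fin (r + 2) ⊕ Unit)))` is at least `5` (`Kt` is a sum type, see
`card_Kt`; or compute with `Nat.card_eq_fintype_card`, `Fintype.card_sum`). -/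
def Stmt_FDR : Prop := ∀ (G : Type) [Group G] [Group.FG G] (Q : ℕ → Type) [∀ n, Group (Q n)]
  (f : ∀ n, G →* Q n), (∀ n, Surjective (f n)) → ∀ A : ∀ n, Subgroup (Q n), (∀ n, A n ≠ ⊥) →
  (∀ n : ℕ, (n : ℕ∞) ≤ (Set.range (cj (A n))).encard) → (∀ n, SumOfConjugates (A n)) →
  (∃ m ≥ 2, DistLE 3 G (FreeGroup (Fin m))) ∧ DistLE 4 G (FreeGroup (Fin 2))

/-! ## Part FA -/

/-- IDL (100 lines). The first properties of the ideal `IU`.
Proof. `sub`: the same `k`, `B`.  `uni`: `k + k'`, `B n ∪ B' n` (`Size.union`).  `sing`: `x = xu p`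
(`Quotient.exists_rep`), `k = 1`, `B n = {p n}` (`xu_eq`).  `proper`: `k`, `B` with
`∀ᶠ n, μ n (B n) ≤ k` and `∀ p, ∀ᶠ n, p n ∈ B n`.  If `B n ≠ univ` for almost all `n`, choose
`p n ∉ B n` where possible (`Classical`, a point of `X n` otherwise; `X n` is not empty if
`univ ≠ B n`; if `X n` is empty then `B n = univ`): contradiction.  So `B n = univ` for almost all `n`
(`Ultrafilter.eventually_not`), `n ≤ μ n univ ≤ k` for almost all `n`, but almost all `n` are `> k`.
For the choice of `p : ∀ n, X n` one needs all `X n` nonempty: hypothesis `hX`.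
`inv`: the element of `PU` is `actU U ρ γ`; `k`, `B' n = ρ n (γ n) '' B n` (`Size.inv`), `actU_xu`. -/
def Stmt_IDL : Prop := ∀ (G : Type) [Group G] (X : ℕ → Type) (U : Ultrafilter ℕ)
  (ρ : ∀ n, G →* Equiv.Perm (X n)) (μ : ∀ n, Set (X n) → ℕ), (U : Filter ℕ) ≤ cofinite →
  (∀ n, Nonempty (X n)) → (∀ n, Size (ρ n) (μ n)) → (∀ n, n ≤ μ n Set.univ) →
  (∀ S S' : Set (XU U X), S ⊆ S' → S' ∈ IU U μ → S ∈ IU U μ) ∧
  (∀ S S' : Set (XU U X), S ∈ IU U μ → S' ∈ IU U μ → S ∪ S' ∈ IU U μ) ∧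
  (∀ x : XU U X, {x} ∈ IU U μ) ∧ Set.univ ∉ IU U μ ∧
  ∀ (g : PU U ρ) (S : Set (XU U X)), S ∈ IU U μ → (PU U ρ).subtype g '' S ∈ IU U μ

/-- CLO (150 lines). The closure property of the ideal.
Proof. `T` finite: `T = {xu (t i) : i < m}`, `m = T.ncard`, with `t i : ∀ n, X n` (choose
representatives of an enumeration `Fin m ≃ T`, `Finset.equivFin` / `Set.Finite.toFinset`).  Let
`T n = {t i n : i < m}`, a set with at most `m` points, and let
`B n = {p | μ n (orbS (ρ n) (T n) p) < n}`, so that `μ n (B n) ≤ C` for `n ≥ m`, where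
`C = ∑ k ∈ range (m + 1), c k ≥ c (T n).ncard`.  Claim: if `P = xu p` has `orbS P_T P ∈ IU` then
`p n ∈ B n` for almost all `n`.  Let `k`, `D` be the data of `orbS … ∈ IU`.  If not
`orbS (ρ n) (T n) (p n) ⊆ D n` for almost all `n`, then for almost all `n` there is `γ n : G` with
`ρ n (γ n) y = y` for `y ∈ T n` and `ρ n (γ n) (p n) ∉ D n` (choice, `Ultrafilter.eventually_not`; put
`γ n = 1` elsewhere).  `actU U ρ γ` fixes the points of `T` and maps `P` to
`xu (fun n => ρ n (γ n) (p n))`, so this is in `orbS`, so `ρ n (γ n) (p n) ∈ D n` for almost all `n`,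
contradiction.  So `μ n (orbS (ρ n) (T n) (p n)) ≤ μ n (D n) ≤ k < n` for almost all `n`
(`Size.mono`). -/
def Stmt_CLO : Prop := ∀ (G : Type) [Group G] (X : ℕ → Type) (U : Ultrafilter ℕ)
  (ρ : ∀ n, G →* Equiv.Perm (X n)) (μ : ∀ n, Set (X n) → ℕ) (c : ℕ → ℕ),
  (U : Filter ℕ) ≤ cofinite → (∀ n, Size (ρ n) (μ n)) →
  (∀ (n : ℕ) (T : Set (X n)), T.Finite → T.ncard ≤ n →
    μ n {p | μ n (orbS (ρ n) T p) < n} ≤ c T.ncard) →
  ∀ T : Set (XU U X), T.Finite → {p | orbS (PU U ρ).subtype T p ∈ IU U μ} ∈ IU U μ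

/-- EXU (100 lines). From the ultraproduct to the group.
Proof. Let `h : LargeAction (PU U ρ).subtype 𝓘`, `W` in `Ws`; let `φ : G → PU U ρ` be
`c ↦ ⟨actU U ρ (fun _ => c), _⟩`, and `W' = W.map (fun a => (φ a.1, a.2))` (`NB` and `≠ []` are
preserved: `NB` only speaks of the letters).  `exists_u` gives `u : J → PU U ρ` with `mv u W' ≠ 1`; let
`ũ j : ℕ → G` with `actU U ρ (ũ j) = u j`.  By induction on `W`
`mv u W' = actU U ρ (fun n => mv (fun j => ũ j n) W)` in `Equiv.Perm _` (`lt` at both signs,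
`map_mul`, `map_inv`, and `actU U ρ` of a pointwise product is the product).  If
`mv (fun j => ũ j n) W = 1` for almost all `n`, then `actU U ρ (…) = 1` (`Equiv.ext`, `actU_xu`,
`xu_eq`), contradiction; so `mv (fun j => ũ j n) W ≠ 1` for almost all `n`, for each of the finitely
many `W` (`Ultrafilter.eventually_not`, `Filter.eventually_all_finite` or induction on the list), so
there is a common `n`. -/
def Stmt_EXU : Prop := ∀ (G : Type) [Group G] (X : ℕ → Type) (U : Ultrafilter ℕ)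
  (ρ : ∀ n, G →* Equiv.Perm (X n)) (𝓘 : Set (Set (XU U X))),
  LargeAction (PU U ρ).subtype 𝓘 → MX G

/-- APX (60 lines). `MX` gives infinite girth.
Proof. Copy `sep_apx` (`Pool/Agent/Work/MP_66343f_al/Sep2.lean`), `sep_preforms` and `sep_component`
(`Sep3.lean`), with `exists_u h` replaced by the hypothesis `MX G`. -/
def Stmt_APX : Prop := ∀ (G : Type) [Group G] [Group.FG G], MX G →
  (∃ m0 : ℕ, ∀ m ≥ m0, Preforms G (FreeGroup (Fin m))) ∧ DistLE 2 G (FreeGroup (Fin 2))

/-- EXA (120 lines). Example: injections of small subsets extend, in an action with an invariant equivalence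
relation (finite quotients which contain `Alt(B_1) × … × Alt(B_k)`, `B_i` the blocks).
Proof. `μ S = S.ncard` (`X` is finite: `Set.toFinite`; `Size`: `Set.ncard_le_ncard`,
`Set.ncard_union_le`, `Set.ncard_singleton`, `Set.ncard_image_of_injective`), `c = id`.  For `N` take
the action for `2 N + 2`.  `μ univ ≥ N` as a class has at least `2 N + 2` points (`X` is nonempty).  For
`|T| ≤ N` and `p ∉ T` the orbit of `p` under the pointwise stabiliser of `T` contains all points
`q ∉ T` of the class of `p`: the map which is the identity on `T` and maps `p` to `q` is injective on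
`insert p T` and preserves the classes; so the orbit has at least `2 N + 2 - N ≥ N` points.  So
`{p | μ (orbS ρ T p) < N} ⊆ T`. -/
def Stmt_EXA : Prop := ∀ (G : Type) [Group G],
  (∀ N : ℕ, ∃ (X : Type) (_ : Finite X) (_ : Nonempty X) (ρ : G →* Equiv.Perm X) (r : X → X → Prop),
    (∀ x, r x x) ∧ (∀ x, N ≤ {y | r x y}.ncard) ∧
    ∀ (T : Set X) (φ : X → X), T.ncard ≤ N → Set.InjOn φ T → (∀ x ∈ T, r x (φ x)) →
      ∃ g : G, ∀ x ∈ T, ρ g x = φ x) →
  LargeFiniteActions G (fun n => n)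

/-- EXL (200 lines). Example: linear groups of large dimension over finite fields.
Proof. `X = V`, `ρ` = the action through `GL(V)`, `μ S = finrank K (span K S)`
(`Size`: `Submodule.finrank_mono`, `Submodule.span_union`, `Submodule.finrank_add_le_finrank_add_finrank`,
`finrank_span_singleton`, `Submodule.span_image` + `LinearEquiv.finrank_map_eq`), `c = id`.  `V` is
finite (`Module.finite_of_finite K` / `Module.Finite`).  For `N` take `V` with
`finrank V ≥ 2 N + 3`, `μ univ = finrank V`.  Let `|T| ≤ N`, `W = span T`, `finrank W ≤ |T|`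
(`finrank_span_finset_le_card` or `finrank_span_le_card`), `p ∉ W`.  Claim: the orbit of `p` under
the pointwise stabiliser of `T` contains `p + w` for every `w ∉ W + K p`: choose a linear form `λ` on
`V` with `λ = 0` on `W + K w` and `λ p = 1`; the transvection `x ↦ x + λ(x) w` (`λ w = 0`) has
determinant one (`LinearMap.transvection`, `LinearEquiv.det`; it is in the image of `G` by hypothesis)
and fixes `W` pointwise.  The vectors `p + w` and `p` (`w` outside of a proper subspace) span a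
subspace of codimension at most … : the span `Y` of the orbit contains `p` and every `w ∉ W + K p`,
and a vector space is spanned by the complement of a proper subspace, so `Y = V`, `μ ≥ N`. So
`{p | μ (orbS ρ T p) < N} ⊆ W`, which has `μ ≤ |T|`. -/
def Stmt_EXL : Prop := ∀ (G : Type) [Group G],
  (∀ N : ℕ, ∃ (K V : Type) (_ : Field K) (_ : Finite K) (_ : AddCommGroup V) (_ : Module K V)
    (_ : Module.Finite K V) (ρ : G →* (V ≃ₗ[K] V)), N ≤ Module.finrank K V ∧
    ∀ (l : V →ₗ[K] K) (w : V), l w = 0 → ∃ g : G, ∀ x, ρ g x = x + l x • w) →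
  LargeFiniteActions G (fun n => n)

/-- FAR (60 lines, uses IDL CLO EXU APX). Theorem FA.
Proof. Choose the data for every `N = n` (`X n` is nonempty: for `n ≥ 1` since `n ≤ μ univ`, and
`μ ∅ = μ {p | μ (orbS ρ ∅ p) < n} …`; to avoid this take the data for `N = n + 1 + c 0` in the place
`n`: if `X` were empty then `univ = ∅ = {p | …}` has size `≤ c 0 < n + 1 + c 0`, a contradiction).
With the data for `N = n + 1 + c 0`: `n ≤ μ univ`, and for `|T| ≤ n`
`{p | μ (orbS ρ T p) < n} ⊆ {p | μ (orbS ρ T p) < n + 1 + c 0}` has size `≤ c |T|` (`Size.mono`).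
IDL and CLO with `U = hyperfilter ℕ` (`Filter.hyperfilter_le_cofinite`) give `LargeAction`, EXU, APX. -/
def Stmt_FAR : Prop := ∀ (G : Type) [Group G] [Group.FG G] (c : ℕ → ℕ), LargeFiniteActions G c →
  (∃ m0 : ℕ, ∀ m ≥ m0, Preforms G (FreeGroup (Fin m))) ∧ DistLE 2 G (FreeGroup (Fin 2))

end Pool.FDA
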